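import Pool.Agent.H87.EBK.Stmts

set_option autoImplicit false

namespace Pool.EBK

variable {V : Type}

def DEG_Ch (G : SimpleGraph V) : List V → Prop
  | [] => True
  | [_] => True
  | a :: b :: t => G.Adj a b ∧ DEG_Ch G (b :: t)

theorem DEG_ch_cons {G : SimpleGraph V} {a b : V} {t : List V} :
    DEG_Ch G (a :: b :: t) ↔ G.Adj a b ∧ DEG_Ch G (b :: t) := Iff.rfl

theorem DEG_ch_tail {G : SimpleGraph V} {a : V} {t : List V} (h : DEG_Ch G (a :: t)) :
    DEG_Ch G t := by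
  cases t with
  | nil => trivial
  | cons b t => exact h.2

theorem DEG_ch_right {G : SimpleGraph V} : ∀ (s t : List V), DEG_Ch G (s ++ t) → DEG_Ch G t
  | [], t, h => h
  | _ :: s, t, h => DEG_ch_right s t (DEG_ch_tail h)

/-- connected sets, by chains -/
def DEG_Conn (G : SimpleGraph V) (D : Set V) : Prop :=
  ∃ p ∈ D, ∀ u ∈ D, Relation.ReflTransGen (fun a b => G.Adj a b ∧ a ∈ D ∧ b ∈ D) p u

theorem DEG_conn {G : SimpleGraph V} {D : Set V} (h : DEG_Conn G D) :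
    (G.induce D).Connected := by
  obtain ⟨p, hp, h⟩ := h
  have key : ∀ u, Relation.ReflTransGen (fun a b => G.Adj a b ∧ a ∈ D ∧ b ∈ D) p u →
      ∀ hu : u ∈ D, (G.induce D).Reachable ⟨p, hp⟩ ⟨u, hu⟩ := by
    intro u hu
    induction hu with
    | refl => intro _; exact SimpleGraph.Reachable.refl _
    | tail h1 h2 ih =>
      intro hc
      refine (ih h2.2.1).trans (SimpleGraph.Adj.reachable ?_)
      exact h2.1
  have : Nonempty D := ⟨⟨p, hp⟩⟩
  refine ⟨?_⟩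
  rintro ⟨u, hu⟩ ⟨w, hw⟩
  exact (key u (h u hu) hu).symm.trans (key w (h w hw) hw)

theorem DEG_list_conn {G : SimpleGraph V} : ∀ (a : V) (t : List V), DEG_Ch G (a :: t) →
    ∀ u ∈ a :: t, Relation.ReflTransGen
      (fun x y => G.Adj x y ∧ x ∈ {v | v ∈ a :: t} ∧ y ∈ {v | v ∈ a :: t}) a u
  | a, [], _, u, hu => by
    rw [List.mem_singleton.1 hu]
  | a, b :: t, h, u, hu => by
    rcases List.mem_cons.1 hu with rfl | hu
    · exact Relation.ReflTransGen.refl
    · have ih := DEG_list_conn b t h.2 u hu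
      have ih' : Relation.ReflTransGen
          (fun x y => G.Adj x y ∧ x ∈ {v | v ∈ a :: b :: t} ∧ y ∈ {v | v ∈ a :: b :: t}) b u :=
        Relation.ReflTransGen.mono (fun x y hxy => ⟨hxy.1, List.mem_cons_of_mem _ hxy.2.1,
          List.mem_cons_of_mem _ hxy.2.2⟩) b u ih
      exact Relation.ReflTransGen.head ⟨h.1, by simp, by simp⟩ ih'

theorem DEG_mk {G : SimpleGraph V} (B0 B1 B2 B3 : Set V)
    (c0 : (G.induce B0).Connected) (c1 : (G.induce B1).Connected)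
    (c2 : (G.induce B2).Connected) (c3 : (G.induce B3).Connected)
    (d01 : Disjoint B0 B1) (d02 : Disjoint B0 B2) (d03 : Disjoint B0 B3)
    (d12 : Disjoint B1 B2) (d13 : Disjoint B1 B3) (d23 : Disjoint B2 B3)
    (a01 : ∃ u ∈ B0, ∃ w ∈ B1, G.Adj u w) (a02 : ∃ u ∈ B0, ∃ w ∈ B2, G.Adj u w)
    (a03 : ∃ u ∈ B0, ∃ w ∈ B3, G.Adj u w) (a12 : ∃ u ∈ B1, ∃ w ∈ B2, G.Adj u w)
    (a13 : ∃ u ∈ B1, ∃ w ∈ B3, G.Adj u w) (a23 : ∃ u ∈ B2, ∃ w ∈ B3, G.Adj u w) :
    HasK4Minor G := by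
  have sw : ∀ {A B : Set V}, (∃ u ∈ A, ∃ w ∈ B, G.Adj u w) → ∃ u ∈ B, ∃ w ∈ A, G.Adj u w := by
    rintro A B ⟨u, hu, w, hw, h⟩
    exact ⟨w, hw, u, hu, h.symm⟩
  refine ⟨![B0, B1, B2, B3], ?_, ?_, ?_⟩
  · intro i
    fin_cases i
    · exact c0
    · exact c1
    · exact c2
    · exact c3
  · intro i j hij
    fin_cases i <;> fin_cases j <;> first
      | exact absurd rfl hij
      | exact d01 | exact d02 | exact d03 | exact d12 | exact d13 | exact d23
      | exact d01.symm | exact d02.symm | exact d03.symm | exact d12.symm | exact d13.symm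
      | exact d23.symm
  · intro i j hij
    fin_cases i <;> fin_cases j <;> first
      | exact absurd rfl hij
      | exact a01 | exact a02 | exact a03 | exact a12 | exact a13 | exact a23
      | exact sw a01 | exact sw a02 | exact sw a03 | exact sw a12 | exact sw a13 | exact sw a23

/-- at most two neighbours in `S` -/
def DEG_Two (G : SimpleGraph V) (S : Set V) (z : V) : Prop :=
  ∃ a b, ∀ u ∈ S, G.Adj z u → u = a ∨ u = b

theorem DEG_last {G : SimpleGraph V} {Q : Set V} (pj : V) (R : List V) : ∀ (U : List V) (p : V),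
    DEG_Ch G (p :: (U ++ pj :: R)) → (∀ v ∈ U, v ∈ Q) →
    ∃ d, Relation.ReflTransGen (fun a b => G.Adj a b ∧ b ∈ Q) p d ∧ G.Adj d pj
  | [], p, h, _ => ⟨p, Relation.ReflTransGen.refl, h.1⟩
  | a :: U, p, h, hU => by
    obtain ⟨d, h1, h2⟩ := DEG_last pj R U a h.2 (fun v hv => hU v (List.mem_cons_of_mem _ hv))
    exact ⟨d, Relation.ReflTransGen.head ⟨h.1, hU a (by simp)⟩ h1, h2⟩

/-- paths in `S` ending with `y x` -/
def DEG_P (G : SimpleGraph V) (S : Set V) (x y : V) (L : List V) : Prop :=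
  L.Nodup ∧ DEG_Ch G L ∧ (∀ v ∈ L, v ∈ S) ∧ ∃ l L', L = l :: (L' ++ [y, x])

theorem DEG_max [Finite V] {P : List V → Prop} (h : ∃ L, P L) (hn : ∀ L, P L → L.Nodup) :
    ∃ L, P L ∧ ∀ L', P L' → L'.length ≤ L.length := by
  classical
  have := Fintype.ofFinite V
  obtain ⟨L0, h0⟩ := h
  have hb : ∀ L, P L → L.length ≤ Fintype.card V := fun L hL =>
    (hn L hL).length_le_card
  have hs := Nat.findGreatest_spec (P := fun n => ∃ L, P L ∧ L.length = n) (hb L0 h0)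
    ⟨L0, h0, rfl⟩
  obtain ⟨L, hL, hl⟩ := hs
  refine ⟨L, hL, fun L' hL' => ?_⟩
  rw [hl]
  exact Nat.le_findGreatest (hb L' hL') ⟨L', hL', rfl⟩

/-- the main step: the statement for all smaller sets gives it for an edge `x y` such that `y` has
another neighbour -/
theorem DEG_step [Finite V] {G : SimpleGraph V} (hG : ¬ HasK4Minor G) (S : Set V) (x y q : V)
    (IH : ∀ S' : Set V, S'.ncard < S.ncard → ∀ a b, a ∈ S' → b ∈ S' → G.Adj a b →
      (∃ w ∈ S', w ≠ a ∧ w ≠ b) → ∃ z ∈ S', z ≠ a ∧ z ≠ b ∧ DEG_Two G S' z)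
    (hx : x ∈ S) (hy : y ∈ S) (hxy : G.Adj x y) (hq : q ∈ S) (hyq : G.Adj y q) (hqx : q ≠ x) :
    ∃ z ∈ S, z ≠ x ∧ z ≠ y ∧ DEG_Two G S z := by
  classical
  obtain ⟨L, hL, hmax⟩ := DEG_max (P := DEG_P G S x y)
    ⟨[q, y, x], by
      refine ⟨?_, ⟨hyq.symm, hxy.symm, trivial⟩, ?_, q, [], rfl⟩
      · simp [hyq.ne.symm, hqx, hxy.ne.symm]
      · simp [hq, hy, hx]⟩ (fun L h => h.1)
  obtain ⟨hnd, hch, hS, l, L', rfl⟩ := hL
  have hlS : l ∈ S := hS l (by simp)
  -- all neighbours of `l` are on the path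
  have hnb : ∀ u ∈ S, G.Adj l u → u ∈ L' ++ [y, x] := by
    intro u hu hlu
    by_contra hcon
    have h1 : DEG_P G S x y (u :: l :: (L' ++ [y, x])) := by
      refine ⟨?_, ⟨hlu.symm, hch⟩, ?_, u, l :: L', rfl⟩
      · refine List.nodup_cons.2 ⟨?_, hnd⟩
        intro hmem
        rcases List.mem_cons.1 hmem with h | h
        · exact hlu.ne h.symm
        · exact hcon h
      · intro v hv
        rcases List.mem_cons.1 hv with rfl | hv
        · exact hu
        · exact hS v hv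
    have h2 := hmax _ h1
    simp at h2
  have hlx : l ≠ x := by
    rintro rfl
    simp at hnd
  have hly : l ≠ y := by
    rintro rfl
    simp at hnd
  by_cases htwo : DEG_Two G S l
  · exact ⟨l, hlS, hlx, hly, htwo⟩
  -- the rest of the path
  obtain ⟨p, T2, hT⟩ : ∃ p T2, L' ++ [y, x] = p :: T2 := by
    cases L' with
    | nil => exact ⟨y, [x], rfl⟩
    | cons a t => exact ⟨a, t ++ [y, x], rfl⟩
  have hfind : ∀ a b : V, ∃ u ∈ S, G.Adj l u ∧ u ≠ a ∧ u ≠ b := by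
    intro a b
    by_contra hcon
    push Not at hcon
    refine htwo ⟨a, b, fun u hu hlu => ?_⟩
    by_cases h : u = a
    · exact Or.inl h
    · exact Or.inr (hcon u hu hlu h)
  obtain ⟨u1, hu1S, hlu1, hu1p, -⟩ := hfind p p
  obtain ⟨u2, hu2S, hlu2, hu2p, hu21⟩ := hfind p u1
  have hu1 : u1 ∈ T2 := by
    have := hnb u1 hu1S hlu1
    rw [hT] at this
    exact (List.mem_cons.1 this).resolve_left hu1p
  have hu2 : u2 ∈ T2 := by
    have := hnb u2 hu2S hlu2
    rw [hT] at this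
    exact (List.mem_cons.1 this).resolve_left hu2p
  obtain ⟨U, pj, R, pi, hsplit, hpj, hpi, hlpi⟩ : ∃ U pj R pi, T2 = U ++ pj :: R ∧
      G.Adj l pj ∧ pi ∈ R ∧ G.Adj l pi := by
    obtain ⟨U, R, h1⟩ := List.append_of_mem hu1
    by_cases h2 : u2 ∈ R
    · exact ⟨U, u1, R, u2, h1, hlu1, h2, hlu2⟩
    · have h3 : u2 ∈ U := by
        rw [h1] at hu2
        rcases List.mem_append.1 hu2 with h | h
        · exact h
        · rcases List.mem_cons.1 h with h | h
          · exact absurd h hu21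
          · exact absurd h h2
      obtain ⟨U1, R1, h4⟩ := List.append_of_mem h3
      exact ⟨U1, u2, R1 ++ u1 :: R, u1, by rw [h1, h4]; simp, hlu2, by simp, hlu1⟩
  rw [hT, hsplit] at hnd hch hS
  have hRne : R ≠ [] := List.ne_nil_of_mem hpi
  -- positions of `x` and `y`
  have hend : x ∈ R ∧ (y = pj ∨ y ∈ R) := by
    obtain ⟨R', r, hR'⟩ := (List.eq_nil_or_concat R).resolve_left hRne
    rw [List.concat_eq_append] at hR'
    subst hR'
    have h1 : (L' ++ [y]) ++ [x] = (p :: (U ++ pj :: R')) ++ [r] := by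
      have : L' ++ [y, x] = p :: (U ++ pj :: (R' ++ [r])) := by rw [hT, hsplit]
      simpa using this
    have h2 := List.append_inj' h1 rfl
    have h3 : x = r := by simpa using h2.2
    refine ⟨by simp [h3], ?_⟩
    rcases List.eq_nil_or_concat R' with rfl | ⟨R'', r', hR''⟩
    · have h4 : L' ++ [y] = (p :: U) ++ [pj] := by simpa using h2.1
      have h5 := (List.append_inj' h4 rfl).2
      exact Or.inl (by simpa using h5)
    · rw [List.concat_eq_append] at hR''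
      subst hR''
      have h4 : L' ++ [y] = (p :: (U ++ pj :: R'')) ++ [r'] := by simpa using h2.1
      have h5 := (List.append_inj' h4 rfl).2
      exact Or.inr (by simp at h5; simp [h5])
  -- facts from `Nodup`
  have hnd' : (l :: p :: (U ++ pj :: R)).Nodup := hnd
  rw [List.nodup_cons, List.nodup_cons, List.nodup_append] at hnd'
  obtain ⟨n1, n2, n3, n4, n5⟩ := hnd'
  rw [List.nodup_cons] at n4
  have hlp : l ≠ p := fun h => n1 (by simp [h])
  have hlpj : l ≠ pj := fun h => n1 (by simp [h])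
  have hlR : l ∉ R := fun h => n1 (by simp [h])
  have hlU : l ∉ U := fun h => n1 (by simp [h])
  have hppj : p ≠ pj := fun h => n2 (by simp [h])
  have hpR : p ∉ R := fun h => n2 (by simp [h])
  have hpjR : pj ∉ R := n4.1
  have hUpj : ∀ v ∈ U, v ≠ pj := fun v hv => n5 v hv pj (by simp)
  have hUR : ∀ v ∈ U, v ∉ R := fun v hv h => n5 v hv v (by simp [h]) rfl
  set Q : Set V := {v | v ∈ S ∧ v ≠ l ∧ v ≠ pj ∧ v ∉ R} with hQ
  set D : Set V := {u | Relation.ReflTransGen (fun a b => G.Adj a b ∧ b ∈ Q) p u} with hD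
  have hpS : p ∈ S := hS p (by simp)
  have hpjS : pj ∈ S := hS pj (by simp)
  have hRS : ∀ v ∈ R, v ∈ S := fun v hv => hS v (by simp [hv])
  have hpQ : p ∈ Q := ⟨hpS, hlp.symm, hppj, hpR⟩
  have hDQ : D ⊆ Q := by
    intro u hu
    rcases Relation.ReflTransGen.cases_tail hu with h | ⟨c, -, h⟩
    · rw [h]; exact hpQ
    · exact h.2
  have hpD : p ∈ D := Relation.ReflTransGen.refl
  have hUQ : ∀ v ∈ U, v ∈ Q := fun v hv =>
    ⟨hS v (by simp [hv]), fun h => hlU (h ▸ hv), hUpj v hv, hUR v hv⟩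
  have hchp : DEG_Ch G (p :: (U ++ pj :: R)) := DEG_ch_tail hch
  have hlpadj : G.Adj l p := hch.1
  obtain ⟨d0, hd0, hd0adj⟩ := DEG_last (Q := Q) pj R U p hchp hUQ
  have hchpj : DEG_Ch G (pj :: R) := DEG_ch_right (p :: U) (pj :: R) hchp
  obtain ⟨r0, R0, hR0⟩ : ∃ r0 R0, R = r0 :: R0 := List.exists_cons_of_ne_nil hRne
  by_cases hdr : ∃ d ∈ D, ∃ r ∈ R, G.Adj d r
  · exfalso
    apply hG
    refine DEG_mk {l} {pj} D {v | v ∈ R} (DEG_conn ⟨l, rfl, ?_⟩) (DEG_conn ⟨pj, rfl, ?_⟩)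
      (DEG_conn ⟨p, hpD, ?_⟩) (DEG_conn ?_) ?_ ?_ ?_ ?_ ?_ ?_
      ⟨l, rfl, pj, rfl, hpj⟩ ⟨l, rfl, p, hpD, hlpadj⟩ ⟨l, rfl, pi, hpi, hlpi⟩
      ⟨pj, rfl, d0, hd0, hd0adj.symm⟩ ?_ hdr
    · rintro u rfl; exact Relation.ReflTransGen.refl
    · rintro u rfl; exact Relation.ReflTransGen.refl
    · intro u hu
      have hu' : Relation.ReflTransGen (fun a b => G.Adj a b ∧ b ∈ Q) p u := hu
      clear hu
      induction hu' with
      | refl => exact Relation.ReflTransGen.refl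
      | tail h1 h2 ih =>
        exact ih.tail ⟨h2.1, h1, h1.tail h2⟩
    · rw [hR0]
      exact ⟨r0, by simp, DEG_list_conn r0 R0 (by rw [hR0] at hchpj; exact hchpj.2)⟩
    · rw [Set.disjoint_singleton]; exact hlpj
    · rw [Set.disjoint_singleton_left]; exact fun h => (hDQ h).2.1 rfl
    · rw [Set.disjoint_singleton_left]; exact hlR
    · rw [Set.disjoint_singleton_left]; exact fun h => (hDQ h).2.2.1 rfl
    · rw [Set.disjoint_singleton_left]; exact hpjR
    · rw [Set.disjoint_left]; exact fun v hv hv' => (hDQ hv).2.2.2 hv'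
    · exact ⟨pj, rfl, r0, by simp [hR0], by rw [hR0] at hchpj; exact hchpj.1⟩
  · push Not at hdr
    have hsub : (D ∪ {pj, l}) ⊆ S := by
      rintro v (hv | hv)
      · exact (hDQ hv).1
      · rcases hv with rfl | hv
        · exact hpjS
        · rw [Set.mem_singleton_iff.1 hv]; exact hlS
    have hxn : x ∉ (D ∪ {pj, l} : Set V) := by
      rintro (hv | hv)
      · exact (hDQ hv).2.2.2 hend.1
      · rcases hv with h | h
        · exact hpjR (h ▸ hend.1)
        · exact hlx (Set.mem_singleton_iff.1 h).symm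
    have hlt : (D ∪ {pj, l} : Set V).ncard < S.ncard :=
      Set.ncard_lt_ncard ⟨hsub, fun h => hxn (h hx)⟩ (Set.toFinite S)
    obtain ⟨z, hz, hzpj, hzl, a, b, hab⟩ := IH _ hlt pj l (by simp) (by simp) hpj.symm
      ⟨p, Or.inl hpD, hppj, hlp.symm⟩
    have hzD : z ∈ D := by
      rcases hz with h | h
      · exact h
      · rcases h with h | h
        · exact absurd h hzpj
        · exact absurd (Set.mem_singleton_iff.1 h) hzl
    refine ⟨z, (hDQ hzD).1, ?_, ?_, a, b, ?_⟩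
    · rintro rfl
      exact (hDQ hzD).2.2.2 hend.1
    · rintro rfl
      rcases hend.2 with h | h
      · exact hzpj h
      · exact (hDQ hzD).2.2.2 h
    · intro u hu hzu
      apply hab u _ hzu
      by_cases h1 : u = l
      · right; rw [h1]; simp
      by_cases h2 : u = pj
      · right; rw [h2]; simp
      left
      have h3 : u ∉ R := fun h => hdr z hzD u h hzu
      exact Relation.ReflTransGen.tail hzD ⟨hzu, hu, h1, h2, h3⟩

theorem DEG_key [Finite V] {G : SimpleGraph V} (hG : ¬ HasK4Minor G) : ∀ (n : ℕ) (S : Set V),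
    S.ncard < n → ∀ x y, x ∈ S → y ∈ S → G.Adj x y → (∃ w ∈ S, w ≠ x ∧ w ≠ y) →
    ∃ z ∈ S, z ≠ x ∧ z ≠ y ∧ DEG_Two G S z
  | 0, S, h, _, _, _, _, _, _ => absurd h (Nat.not_lt_zero _)
  | n + 1, S, hn, x, y, hx, hy, hxy, ⟨w, hw, hwx, hwy⟩ => by
    have IH : ∀ S' : Set V, S'.ncard < S.ncard → ∀ a b, a ∈ S' → b ∈ S' → G.Adj a b →
        (∃ w ∈ S', w ≠ a ∧ w ≠ b) → ∃ z ∈ S', z ≠ a ∧ z ≠ b ∧ DEG_Two G S' z :=
      fun S' h' => DEG_key hG n S' (by omega)
    by_cases h1 : ∃ q ∈ S, G.Adj y q ∧ q ≠ x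
    · obtain ⟨q, hq, hyq, hqx⟩ := h1
      exact DEG_step hG S x y q IH hx hy hxy hq hyq hqx
    by_cases h2 : ∃ q ∈ S, G.Adj x q ∧ q ≠ y
    · obtain ⟨q, hq, hxq, hqy⟩ := h2
      obtain ⟨z, h3, h4, h5, h6⟩ := DEG_step hG S y x q IH hy hx hxy.symm hq hxq hqy
      exact ⟨z, h3, h5, h4, h6⟩
    push Not at h1 h2
    have hno : ∀ z ∈ S, z ≠ x → z ≠ y → ∀ u ∈ S, G.Adj z u → u ≠ x ∧ u ≠ y := by
      intro z hz hzx hzy u hu hzu
      constructor
      · rintro rfl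
        exact hzy (h2 z hz hzu.symm)
      · rintro rfl
        exact hzx (h1 z hz hzu.symm)
    by_cases h3 : ∃ p q, p ∈ S ∧ q ∈ S ∧ p ≠ x ∧ p ≠ y ∧ q ≠ x ∧ q ≠ y ∧ G.Adj p q
    · obtain ⟨p, q, hp, hq, hpx, hpy, hqx, hqy, hpq⟩ := h3
      by_cases h4 : ∃ w' ∈ S, w' ≠ x ∧ w' ≠ y ∧ w' ≠ p ∧ w' ≠ q
      · obtain ⟨w', hw', hwx', hwy', hwp, hwq⟩ := h4
        have hlt : {v | v ∈ S ∧ v ≠ x ∧ v ≠ y}.ncard < S.ncard :=
          Set.ncard_lt_ncard ⟨fun v hv => hv.1, fun h => (h hx).2.1 rfl⟩ (Set.toFinite S)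
        obtain ⟨z, hz, hzp, hzq, a, b, hab⟩ := IH {v | v ∈ S ∧ v ≠ x ∧ v ≠ y} hlt p q
          ⟨hp, hpx, hpy⟩ ⟨hq, hqx, hqy⟩ hpq ⟨w', ⟨hw', hwx', hwy'⟩, hwp, hwq⟩
        refine ⟨z, hz.1, hz.2.1, hz.2.2, a, b, fun u hu hzu => ?_⟩
        have := hno z hz.1 hz.2.1 hz.2.2 u hu hzu
        exact hab u ⟨hu, this.1, this.2⟩ hzu
      · push Not at h4
        refine ⟨p, hp, hpx, hpy, p, q, fun u hu hpu => ?_⟩
        have := hno p hp hpx hpy u hu hpu
        by_cases h5 : u = p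
        · exact Or.inl h5
        · exact Or.inr (h4 u hu this.1 this.2 h5)
    · push Not at h3
      refine ⟨w, hw, hwx, hwy, w, w, fun u hu hwu => ?_⟩
      have := hno w hw hwx hwy u hu hwu
      exact absurd hwu (h3 w u hw hu hwx hwy this.1 this.2)

theorem DEG_main [Finite V] [Nonempty V] (G : SimpleGraph V) (hG : ¬ HasK4Minor G) :
    ∃ z : V, ∃ x y : V, ∀ u, G.Adj z u → u = x ∨ u = y := by
  by_cases h1 : ∃ x y, G.Adj x y
  · obtain ⟨x, y, hxy⟩ := h1
    by_cases h2 : ∃ w, w ≠ x ∧ w ≠ y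
    · obtain ⟨w, hwx, hwy⟩ := h2
      obtain ⟨z, -, -, -, a, b, hab⟩ := DEG_key hG _ Set.univ (Nat.lt_succ_self _) x y
        (Set.mem_univ _) (Set.mem_univ _) hxy ⟨w, Set.mem_univ _, hwx, hwy⟩
      exact ⟨z, a, b, fun u hu => hab u (Set.mem_univ _) hu⟩
    · push Not at h2
      refine ⟨x, x, y, fun u _ => ?_⟩
      by_cases h3 : u = x
      · exact Or.inl h3
      · exact Or.inr (h2 u h3)
  · push Not at h1
    obtain ⟨z⟩ := ‹Nonempty V›
    exact ⟨z, z, z, fun u hu => absurd hu (h1 z u)⟩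

/-- Row DEG. -/
theorem deg : DEG := fun _ _ _ G hG => DEG_main G hG

end Pool.EBK
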